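import Pool.Agent.H373R2.T7.SHN3

/-!
Schinzel's quantitative Goldbach-type hypothesis for polynomials, with genuine primes, for almost
all constant terms: let `F_1, ..., F_g, G` be arbitrary fixed nonconstant integer polynomials with
positive leading coefficients. For all `(N, a_1, ..., a_g)` in a box `1 ≤ N ≤ M`, `1 ≤ a_i ≤ A_i`
(`M` of the order of `x ^ deg G`, `A_i` of the order of `x ^ deg F_i`), except for a proportion
`1 / (log x) ^ U`, the number of positive integers `n` such that `F_1(n) + a_1, ..., F_g(n) + a_g`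
and `N - G(n)` are all (positive) primes is given by Schinzel's formula up to a factor `1 ± ε`,
provided that the product has no fixed prime divisor; the logarithmically weighted count is given
by its main term with an error `x / (log x) ^ U`.
-/

set_option autoImplicit false

namespace Pool.Agent.Results.MP_0bf1d2_nt.ConstantTerms

open Finset Polynomial

variable {g : ℕ}

/-- `F_1(n) + a_1, ..., F_g(n) + a_g` and `N - G(n)` are (positive) primes -/
def AllPrime (F : Fin g → ℤ[X]) (a : Fin g → ℕ) (G : ℤ[X]) (N n : ℕ) : Prop :=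
  (∀ i, ((F i).eval (n : ℤ) + a i).toNat.Prime) ∧ ((N : ℤ) - G.eval (n : ℤ)).toNat.Prime

/-- `Q_1`: the number of positive integers `n` such that `F_1(n) + a_1, ..., F_g(n) + a_g` and
`N - G(n)` are all positive primes -/
noncomputable def Q1 (F : Fin g → ℤ[X]) (a : Fin g → ℕ) (G : ℤ[X]) (N : ℕ) : ℕ :=
  {n : ℕ | 1 ≤ n ∧ AllPrime F a G N n}.ncard

/-- the sum of `log (N - G(n)) ∏ log (F_i(n) + a_i)` over these `n` -/
noncomputable def W1 (F : Fin g → ℤ[X]) (a : Fin g → ℕ) (G : ℤ[X]) (N : ℕ) : ℝ :=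
  ∑ᶠ n ∈ {n : ℕ | 1 ≤ n ∧ AllPrime F a G N n},
    Real.log ((N : ℝ) - ((G.eval (n : ℤ) : ℤ) : ℝ)) *
      ∏ i, Real.log ((((F i).eval (n : ℤ) : ℤ) : ℝ) + a i)

/-- `X(N)`: the number of positive integers `n` with `N - G(n) > 0` -/
noncomputable def X1 (G : ℤ[X]) (N : ℕ) : ℕ := {n : ℕ | 1 ≤ n ∧ 0 < (N : ℤ) - G.eval (n : ℤ)}.ncard

/-- the number of residues `r` modulo `p` with
`(F_1(r) + a_1) ... (F_g(r) + a_g) (N - G(r)) ≡ 0` -/
def omega (F : Fin g → ℤ[X]) (a : Fin g → ℕ) (G : ℤ[X]) (N p : ℕ) : ℕ :=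
  ((range p).filter (fun r : ℕ =>
    (p : ℤ) ∣ (∏ i, ((F i).eval (r : ℤ) + a i)) * (N - G.eval (r : ℤ)))).card

/-- the product of Schinzel's local factors `(1 - omega(p) / p) (1 - 1 / p) ^ (-(g + 1))` over the
primes `p ≤ z` -/
noncomputable def sing (F : Fin g → ℤ[X]) (a : Fin g → ℕ) (G : ℤ[X]) (N z : ℕ) : ℝ :=
  ∏ p ∈ (Icc 1 z).filter Nat.Prime, (1 - (omega F a G N p : ℝ) / p) / (1 - 1 / (p : ℝ)) ^ (g + 1)

/-- the expected number `X / (log X) ^ (g + 1) * (h_0 h_1 ... h_g)⁻¹ * sing z` -/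
noncomputable def expected (F : Fin g → ℤ[X]) (a : Fin g → ℕ) (G : ℤ[X]) (N z : ℕ) : ℝ :=
  sing F a G N z * X1 G N /
    ((G.natDegree * ∏ i, ((F i).natDegree : ℝ)) * Real.log (X1 G N) ^ (g + 1))

/-- `(F_1 + a_1) ... (F_g + a_g) (N - G)` has no fixed prime divisor -/
def NoFixedDivisor (F : Fin g → ℤ[X]) (a : Fin g → ℕ) (G : ℤ[X]) (N : ℕ) : Prop :=
  ∀ p : ℕ, p.Prime → ∃ n : ℤ, ¬ (p : ℤ) ∣ (∏ i, ((F i).eval n + a i)) * (N - G.eval n)

open Classical in
/-- **Schinzel's Goldbach-type hypothesis for almost all constant terms.** Let `F_1, ..., F_g, G`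
be nonconstant integer polynomials with positive leading coefficients, `B ≥ 1`, `U`, `ε > 0`. There
is `B₀` such that for every `E` and all large `x`: if `M` and `A_i` are within a factor `B` of
`x ^ deg G` and `x ^ deg F_i`, `G(n) ≥ M` for all `n > x`, and `(log x) ^ B₀ ≤ z ≤ (log x) ^ E`,
then for all `(N, a)` with `1 ≤ N ≤ M`, `1 ≤ a_i ≤ A_i`, with at most
`M A_1 ... A_g / (log x) ^ U` exceptions, (1) the weighted count `W1` differs from
`sing z * X(N)` by at most `x / (log x) ^ U`, and (2) if the product has no fixed prime divisor and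
`X(N) ≥ ε x`, then `Q1` is `(1 + θ ε)` times the expected number, `|θ| ≤ 1`. -/
theorem result (g : ℕ) (F : Fin g → ℤ[X]) (hF : ∀ i, 1 ≤ (F i).natDegree)
    (hFl : ∀ i, 0 < (F i).leadingCoeff) (G : ℤ[X]) (hG : 1 ≤ G.natDegree)
    (hGl : 0 < G.leadingCoeff) (B : ℕ) (hB : 1 ≤ B) (U : ℕ) (ε : ℝ) (hε : 0 < ε) :
    ∃ B₀ : ℕ, ∀ E : ℕ, ∃ x₀ : ℕ, ∀ x : ℕ, x₀ ≤ x →
      ∀ M : ℕ, M ≤ B * x ^ G.natDegree → x ^ G.natDegree ≤ B * M →
      (∀ n : ℕ, x < n → (M : ℤ) ≤ G.eval (n : ℤ)) →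
      ∀ A : Fin g → ℕ, (∀ i, A i ≤ B * x ^ (F i).natDegree ∧ x ^ (F i).natDegree ≤ B * A i) →
      ∀ z : ℕ, Real.log x ^ B₀ ≤ z → (z : ℝ) ≤ Real.log x ^ E →
      (((Icc 1 M ×ˢ Fintype.piFinset (fun i => Icc 1 (A i))).filter
        (fun q : ℕ × (Fin g → ℕ) =>
          ¬ (|W1 F q.2 G q.1 - sing F q.2 G q.1 z * X1 G q.1| ≤ x / Real.log x ^ U ∧
            (NoFixedDivisor F q.2 G q.1 → ε * x ≤ X1 G q.1 →
              |(Q1 F q.2 G q.1 : ℝ) - expected F q.2 G q.1 z| ≤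
                ε * expected F q.2 G q.1 z)))).card : ℝ) ≤
        (M * ∏ i, (A i : ℝ)) / Real.log x ^ U :=
  Pool.Agent.H373R2.T7.SHN.full_main F hF hFl G hG hGl B hB U ε hε

end Pool.Agent.Results.MP_0bf1d2_nt.ConstantTerms
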